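import Pool.Agent.H174.GM.Stmts

/-!
# GM BAR1: odd polynomials in one variable
-/

set_option autoImplicit false

namespace Pool.Agent.H326.GM174.BAR1

open Polynomial Pool.Agent.H174.GM

section
variable {K : Type} [Field K]

lemma natDegree_one_sub_X : (1 - X : K[X]).natDegree = 1 := by
  have h : (1 - X : K[X]) = -(X - C 1) := by simp
  rw [h, natDegree_neg, natDegree_X_sub_C]

lemma leadingCoeff_one_sub_X : (1 - X : K[X]).leadingCoeff = -1 := by
  have h : (1 - X : K[X]) = -(X - C 1) := by simp
  rw [h, leadingCoeff_neg, leadingCoeff_X_sub_C]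

lemma natDegree_u : (X * (1 - X) : K[X]).natDegree = 2 := by
  have h1 : (1 - X : K[X]) ≠ 0 := by
    intro h
    have := natDegree_one_sub_X (K := K)
    rw [h] at this
    simp at this
  rw [natDegree_mul X_ne_zero h1, natDegree_X, natDegree_one_sub_X]

lemma leadingCoeff_u : (X * (1 - X) : K[X]).leadingCoeff = -1 := by
  rw [leadingCoeff_mul, leadingCoeff_X, leadingCoeff_one_sub_X, one_mul]

lemma comp_u : (X * (1 - X) : K[X]).comp (1 - X) = X * (1 - X) := by
  simp only [mul_comp, sub_comp, X_comp, one_comp]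
  ring

lemma u_ne : (X * (1 - X) : K[X]) ≠ 0 := by
  intro h
  have := natDegree_u (K := K)
  rw [h] at this
  simp at this

lemma two_C : (2 : K[X]) = C 2 := (map_ofNat C 2).symm

variable [CharZero K]

lemma h12 : (1 - 2 * X : K[X]) = -(C 2 * X - C 1) := by
  rw [two_C, map_one]; ring

lemma natDegree_12 : (1 - 2 * X : K[X]).natDegree = 1 := by
  rw [h12, natDegree_neg]
  have : (C 2 * X - C 1 : K[X]) = C 2 * X + C (-1) := by
    rw [map_neg]; ring
  rw [this]
  exact natDegree_linear two_ne_zero

lemma leadingCoeff_12 : (1 - 2 * X : K[X]).leadingCoeff = -2 := by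
  rw [h12, leadingCoeff_neg]
  have : (C 2 * X - C 1 : K[X]) = C 2 * X + C (-1) := by
    rw [map_neg]; ring
  rw [this, leadingCoeff_linear two_ne_zero]

lemma ne_12 : (1 - 2 * X : K[X]) ≠ 0 := by
  intro h
  have := natDegree_12 (K := K)
  rw [h] at this
  simp at this

lemma comp_12 : (1 - 2 * X : K[X]).comp (1 - X) = -(1 - 2 * X) := by
  simp only [mul_comp, sub_comp, X_comp, one_comp]
  have : (2 : K[X]).comp (1 - X) = 2 := by
    rw [two_C, C_comp]
  rw [this]
  ring

/-- the comparison polynomial -/
noncomputable def qq (c : K) (d : ℕ) : K[X] := C c * ((1 - 2 * X) * (X * (1 - X)) ^ d)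

lemma qq_odd (c : K) (d : ℕ) : (qq c d).comp (1 - X) = -qq c d := by
  unfold qq
  rw [mul_comp, C_comp, mul_comp, comp_12, pow_comp, comp_u]
  ring

lemma natDegree_core (d : ℕ) : ((1 - 2 * X : K[X]) * (X * (1 - X)) ^ d).natDegree = 2 * d + 1 := by
  rw [natDegree_mul ne_12 (pow_ne_zero _ u_ne), natDegree_12, natDegree_pow, natDegree_u]
  ring

lemma leadingCoeff_core (d : ℕ) :
    ((1 - 2 * X : K[X]) * (X * (1 - X)) ^ d).leadingCoeff = -2 * (-1) ^ d := by
  rw [leadingCoeff_mul, leadingCoeff_12, leadingCoeff_pow, leadingCoeff_u]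

lemma exists_bar : ∀ (n : ℕ) (P : K[X]), P.natDegree < n → P.comp (1 - X) = -P →
    ∃ B : K[X], P = (1 - 2 * X) * B.comp (X * (1 - X)) := by
  intro n
  induction n with
  | zero => intro P h; exact absurd h (Nat.not_lt_zero _)
  | succ n ih =>
    intro P hn hP
    by_cases h0 : P = 0
    · exact ⟨0, by simp [h0]⟩
    have hlc : P.leadingCoeff ≠ 0 := leadingCoeff_ne_zero.2 h0
    have h1 : (P.comp (1 - X)).leadingCoeff = P.leadingCoeff * (-1) ^ P.natDegree := by
      rw [leadingCoeff_comp (by rw [natDegree_one_sub_X]; exact one_ne_zero),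
        leadingCoeff_one_sub_X]
    rw [hP, leadingCoeff_neg] at h1
    have hodd : Odd P.natDegree := by
      by_contra hne
      rw [Nat.not_odd_iff_even] at hne
      rw [hne.neg_one_pow, mul_one] at h1
      have h2 : (2 : K) * P.leadingCoeff = 0 := by linear_combination (-1 : K) * h1
      rcases mul_eq_zero.1 h2 with h | h
      · exact two_ne_zero h
      · exact hlc h
    obtain ⟨d, hd⟩ := hodd
    set c : K := P.leadingCoeff / (-2 * (-1) ^ d) with hc
    have hne : (-2 * (-1) ^ d : K) ≠ 0 := by
      refine mul_ne_zero (neg_ne_zero.2 two_ne_zero) (pow_ne_zero _ (neg_ne_zero.2 one_ne_zero))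
    have hc0 : c ≠ 0 := div_ne_zero hlc hne
    have hqd : (qq c d).natDegree = P.natDegree := by
      unfold qq
      rw [natDegree_C_mul hc0, natDegree_core, hd]
    have hql : (qq c d).leadingCoeff = P.leadingCoeff := by
      unfold qq
      rw [leadingCoeff_mul, leadingCoeff_C, leadingCoeff_core, hc, div_mul_cancel₀ _ hne]
    have hQ : (P - qq c d).comp (1 - X) = -(P - qq c d) := by
      rw [sub_comp, hP, qq_odd]; ring
    have hlt : (P - qq c d).natDegree < n := by
      have h3 : (P - qq c d).natDegree < P.natDegree ∨ P - qq c d = 0 := by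
        by_cases h4 : P - qq c d = 0
        · exact Or.inr h4
        · left
          have hdeg : P.degree = (qq c d).degree := by
            rw [degree_eq_natDegree h0, degree_eq_natDegree (by
              intro h; rw [h, leadingCoeff_zero] at hql; exact hlc hql.symm), hqd]
          have := degree_sub_lt_left hdeg h0 hql.symm
          exact natDegree_lt_natDegree h4 this
      rcases h3 with h3 | h3
      · omega
      · rw [h3, natDegree_zero]; omega
    obtain ⟨B, hB⟩ := ih _ hlt hQ
    refine ⟨B + C c * X ^ d, ?_⟩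
    have h5 : P = (P - qq c d) + qq c d := by ring
    rw [h5, hB, add_comp, mul_comp, C_comp, pow_comp, X_comp]
    unfold qq
    ring

end

theorem bar1 : S_BAR1 := by
  intro K _ _ P hP h0
  obtain ⟨B, hB⟩ := exists_bar (P.natDegree + 1) P (Nat.lt_succ_self _) hP
  refine ⟨B, hB, ?_⟩
  have hB0 : B.comp (X * (1 - X)) ≠ 0 := by
    intro h
    rw [h, mul_zero] at hB
    exact h0 hB
  rw [hB, natDegree_mul ne_12 hB0, natDegree_12, natDegree_comp, natDegree_u]
  ring

end Pool.Agent.H326.GM174.BAR1
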