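import Pool.Agent.H174.GM.Stmts2

/-!
# GM MREC: recursion of the Magog residues
-/

set_option autoImplicit false

namespace Pool.Agent.H326.GM174.MREC

open Pool.Agent.H174.GM Finset

variable {k : ℕ}

/-! ### supports -/

lemma coeff_mul_ne {f g : E k} {γ : Ex k} (h : (f * g).coeff γ ≠ 0) :
    ∃ a b : Ex k, a + b = γ ∧ f.coeff a ≠ 0 ∧ g.coeff b ≠ 0 := by
  rw [HahnSeries.coeff_mul] at h
  obtain ⟨⟨a, b⟩, hab, hne⟩ := Finset.exists_ne_zero_of_sum_ne_zero h
  rw [Finset.mem_antidiagonal] at hab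
  exact ⟨a, b, hab.2.2, hab.1, hab.2.1⟩

lemma coeff_zsmul_ne {f : E k} {n : ℤ} {γ : Ex k} (h : (n • f).coeff γ ≠ 0) : f.coeff γ ≠ 0 := by
  intro h0
  apply h
  rw [HahnSeries.coeff_smul, h0, smul_zero]

/-- all exponents are non negative -/
def AN (f : E k) : Prop := ∀ l, Ge l 0 f

lemma AN.add {f g : E k} (hf : AN f) (hg : AN g) : AN (f + g) := by
  intro l γ h
  by_cases h1 : f.coeff γ = 0
  · refine hg l γ ?_
    rwa [HahnSeries.coeff_add, h1, zero_add] at h
  · exact hf l γ h1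

lemma AN.neg {f : E k} (hf : AN f) : AN (-f) := by
  intro l γ h
  rw [HahnSeries.coeff_neg] at h
  exact hf l γ (neg_ne_zero.1 h)

lemma AN.sub {f g : E k} (hf : AN f) (hg : AN g) : AN (f - g) := by
  rw [sub_eq_add_neg]; exact hf.add hg.neg

lemma AN.mul {f g : E k} (hf : AN f) (hg : AN g) : AN (f * g) := by
  intro l γ h
  obtain ⟨a, b, rfl, ha, hb⟩ := coeff_mul_ne h
  exact add_nonneg (hf l a ha) (hg l b hb)

lemma AN.zsmul {f : E k} (n : ℤ) (hf : AN f) : AN (n • f) := fun l γ h =>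
  hf l γ (coeff_zsmul_ne h)

lemma AN_zero : AN (0 : E k) := fun _ _ h => absurd HahnSeries.coeff_zero h

lemma AN_one : AN (1 : E k) := by
  intro l γ h
  rw [HahnSeries.coeff_one] at h
  have h1 : γ = 0 := by
    by_contra hne
    exact h (if_neg hne)
  rw [h1]
  exact le_refl _

lemma AN_sum {ι : Type*} (s : Finset ι) (f : ι → E k) (h : ∀ i ∈ s, AN (f i)) :
    AN (∑ i ∈ s, f i) :=
  Finset.sum_induction f AN (fun _ _ => AN.add) AN_zero h

lemma AN_prod {ι : Type*} (s : Finset ι) (f : ι → E k) (h : ∀ i ∈ s, AN (f i)) :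
    AN (∏ i ∈ s, f i) :=
  Finset.prod_induction f AN (fun _ _ => AN.mul) AN_one h

lemma AN.pow {f : E k} (hf : AN f) (n : ℕ) : AN (f ^ n) := by
  induction n with
  | zero => rw [pow_zero]; exact AN_one
  | succ n ih => rw [pow_succ]; exact ih.mul hf

lemma AN_xx (h4 : S_XF) (j : Fin k) : AN (xx j) := by
  intro l
  by_cases h : j = l
  · subst h
    intro γ hγ
    have := (h4 k j).2.1 γ hγ
    omega
  · exact ((h4 k l).2.2.2.1 j h).1

lemma AN_inv (h4 : S_XF) (j : Fin k) : AN ((1 - xx j : E k)⁻¹) := by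
  intro l
  by_cases h : j = l
  · subst h
    exact ((h4 k j).2.2.2.2.1 j).2.2
  · have h1 := (h4 k l).2.2.2.1 j h
    have h2 := ((h4 k l).2.2.2.2.2.2.2 _ h1).1
    have h3 := (h4 k l).2.2.2.2.2.1 1
    have h5 := ((h4 k l).2.2.2.2.2.2.1 _ _ h3 h2).1
    rw [map_one, ← sub_eq_add_neg] at h5
    exact ((h4 k l).2.2.2.2.2.2.2 _ h5).2.1

lemma NN.add {N : ℕ} {f g : E k} (hf : NN N f) (hg : NN N g) : NN N (f + g) := by
  intro γ h
  by_cases h1 : f.coeff γ = 0
  · refine hg γ ?_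
    rwa [HahnSeries.coeff_add, h1, zero_add] at h
  · exact hf γ h1

lemma NN.neg {N : ℕ} {f : E k} (hf : NN N f) : NN N (-f) := by
  intro γ h
  rw [HahnSeries.coeff_neg] at h
  exact hf γ (neg_ne_zero.1 h)

lemma NN.sub {N : ℕ} {f g : E k} (hf : NN N f) (hg : NN N g) : NN N (f - g) := by
  rw [sub_eq_add_neg]; exact NN.add hf (NN.neg hg)

lemma NN.mul {N : ℕ} {f g : E k} (hf : NN N f) (hg : AN g) : NN N (f * g) := by
  intro γ h
  obtain ⟨a, b, rfl, ha, hb⟩ := coeff_mul_ne h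
  obtain ⟨h1, l, h2⟩ := hf a ha
  refine ⟨fun l => add_nonneg (h1 l) (hg l b hb), l, ?_⟩
  have h3 := hg l b hb
  change (N : ℤ) ≤ ofLex a l + ofLex b l
  omega

lemma NN.zsmul {N : ℕ} {f : E k} (n : ℤ) (hf : NN N f) : NN N (n • f) := fun γ h =>
  hf γ (coeff_zsmul_ne h)

lemma NN_zero {N : ℕ} : NN N (0 : E k) := fun _ h => absurd HahnSeries.coeff_zero h

lemma NN_sum {N : ℕ} {ι : Type*} (s : Finset ι) (f : ι → E k) (h : ∀ i ∈ s, NN N (f i)) :
    NN N (∑ i ∈ s, f i) :=
  Finset.sum_induction f (NN N) (fun _ _ => NN.add) NN_zero h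

lemma NN_pow (h2 : S_EH1) (h4 : S_XF) (N n : ℕ) (hn : N ≤ n) (j : Fin k) :
    NN N ((xx j : E k) ^ n) := by
  have h5 : ∀ n : ℕ, Ge j (n : ℤ) ((xx j : E k) ^ n) := by
    intro n
    induction n with
    | zero => rw [pow_zero]; exact AN_one j
    | succ n ih =>
      rw [pow_succ]
      have := (h2 k j n 1 _ _).1 ih (h4 k j).2.1
      push_cast
      exact this
  intro γ hγ
  refine ⟨fun l => (AN_xx h4 j).pow n l γ hγ, j, ?_⟩
  have := h5 n γ hγ
  omega

/-- the error in replacing a product of differences -/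
lemma NN_prod_sub {N : ℕ} {ι : Type*} [DecidableEq ι] (s : Finset ι) (A B : ι → E k)
    (hA : ∀ i, AN (A i)) (hB : ∀ i, NN N (B i)) (hB' : ∀ i, AN (B i)) :
    NN N (∏ i ∈ s, (A i - B i) - ∏ i ∈ s, A i) := by
  induction s using Finset.induction_on with
  | empty => rw [prod_empty, prod_empty, sub_self]; exact NN_zero
  | insert i s hi ih =>
    rw [prod_insert hi, prod_insert hi]
    have e : (A i - B i) * ∏ i ∈ s, (A i - B i) - A i * ∏ i ∈ s, A i =
        (∏ i ∈ s, (A i - B i) - ∏ i ∈ s, A i) * (A i - B i) - B i * ∏ i ∈ s, A i := by ring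
    rw [e]
    exact NN.sub (NN.mul ih ((hA i).sub (hB' i))) (NN.mul (hB i) (AN_prod s A fun i _ => hA i))

/-! ### determinants -/

section det
variable {R : Type*} [CommRing R]

lemma sum_sign_det (M : Matrix (Fin k) (Fin k) R) :
    ∑ σ : Equiv.Perm (Fin k), (Equiv.Perm.sign σ : ℤ) • ∏ i, M (σ i) i = M.det := by
  rw [Matrix.det_apply']
  refine sum_congr rfl fun σ _ => ?_
  rw [zsmul_eq_mul]

/-- the bidiagonal matrix -/
def bid (k : ℕ) : Matrix (Fin k) (Fin k) R := fun i j =>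
  (if i = j then 1 else 0) - (if j.1 + 1 = i.1 then 1 else 0)

lemma det_bid : (bid k : Matrix (Fin k) (Fin k) R).det = 1 := by
  rw [Matrix.det_of_isLowerTriangular]
  · refine prod_eq_one fun i _ => ?_
    unfold bid
    rw [if_pos rfl, if_neg (by omega), sub_zero]
  · intro i j hij
    have hij' : i < j := hij
    unfold bid
    rw [if_neg hij'.ne, if_neg (by
      have : i.1 < j.1 := hij'
      omega), sub_zero]

lemma tele (c : Fin k → Fin k → R) (d : Fin k → R) :
    ∑ σ : Equiv.Perm (Fin k), (Equiv.Perm.sign σ : ℤ) • ∏ j : Fin k,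
      (c j (σ j) - (if h : j.1 + 1 < k then c ⟨j.1 + 1, h⟩ (σ j) else d (σ j))) =
    ∑ σ : Equiv.Perm (Fin k), (Equiv.Perm.sign σ : ℤ) • ∏ j, (c j (σ j) - d (σ j)) := by
  let M1 : Matrix (Fin k) (Fin k) R := fun i j => c j i -
    (if h : j.1 + 1 < k then c ⟨j.1 + 1, h⟩ i else d i)
  let M2 : Matrix (Fin k) (Fin k) R := fun i j => c j i - d i
  have e1 := sum_sign_det M1
  have e2 := sum_sign_det M2
  have e3 : M1 = M2 * bid k := by
    funext i j
    rw [Matrix.mul_apply]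
    change c j i - (if h : j.1 + 1 < k then c ⟨j.1 + 1, h⟩ i else d i) =
      ∑ l, (c l i - d i) * bid k l j
    unfold bid
    simp only [mul_sub, mul_ite, mul_one, mul_zero]
    rw [sum_sub_distrib, sum_ite_eq' univ j, if_pos (mem_univ _)]
    by_cases h : j.1 + 1 < k
    · rw [dif_pos h]
      rw [sum_eq_single (⟨j.1 + 1, h⟩ : Fin k)]
      · rw [if_pos rfl]; ring
      · intro b _ hb
        refine if_neg fun hb' => hb ?_
        exact Fin.ext hb'.symm
      · intro h'; exact absurd (mem_univ _) h'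
    · rw [dif_neg h]
      rw [sum_eq_zero]
      · ring
      · intro b _
        refine if_neg fun hb' => h ?_
        have := b.2
        omega
  change ∑ σ : Equiv.Perm (Fin k), (Equiv.Perm.sign σ : ℤ) • ∏ j : Fin k, M1 (σ j) j =
    ∑ σ : Equiv.Perm (Fin k), (Equiv.Perm.sign σ : ℤ) • ∏ j : Fin k, M2 (σ j) j
  rw [e1, e2, e3, Matrix.det_mul, det_bid, mul_one]

end det

/-! ### the recursion -/

lemma geom {R : Type*} [CommRing R] (x : R) (a b : ℕ) (h : a ≤ b) :
    (1 - x) * ∑ i ∈ Finset.Ico a b, x ^ i = x ^ a - x ^ b := by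
  induction b, h using Nat.le_induction with
  | base => simp
  | succ b hb ih => rw [Finset.sum_Ico_succ_top hb, mul_add, ih]; ring

/-- the next exponent -/
def nxt (N : ℕ) (a : Fin k → ℕ) (j : Fin k) : ℕ :=
  if h : j.1 + 1 < k then a ⟨j.1 + 1, h⟩ - 1 else N

lemma filter_eq (m : ℕ) (a : Fin k → ℕ) (_ : StrictMono a) (hl : ∀ i, a i ≤ m + k + 1) :
    (Fintype.piFinset fun _ : Fin k => Finset.range (m + k)).filter
      (fun b => (∀ i, a i ≤ b i + 1) ∧ ∀ i j : Fin k, i.1 + 1 = j.1 → b i + 2 ≤ a j) =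
    Fintype.piFinset fun j : Fin k => Finset.Ico (a j - 1) (nxt (m + k) a j) := by
  ext b
  simp only [mem_filter, Fintype.mem_piFinset, mem_range, mem_Ico]
  constructor
  · rintro ⟨h1, h2, h3⟩ j
    refine ⟨by have := h2 j; omega, ?_⟩
    unfold nxt
    split_ifs with h
    · have := h3 j ⟨j.1 + 1, h⟩ rfl
      omega
    · exact h1 j
  · intro h
    have key : ∀ i j : Fin k, i.1 + 1 = j.1 → b i + 2 ≤ a j := by
      intro i j hij
      have h4 := (h i).2
      have h5 : i.1 + 1 < k := by rw [hij]; exact j.2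
      have h6 : (⟨i.1 + 1, h5⟩ : Fin k) = j := Fin.ext hij
      unfold nxt at h4
      rw [dif_pos h5, h6] at h4
      omega
    refine ⟨fun j => ?_, fun i => by have := (h i).1; omega, key⟩
    by_cases h5 : j.1 + 1 < k
    · have h6 := key j ⟨j.1 + 1, h5⟩ rfl
      have h7 := hl ⟨j.1 + 1, h5⟩
      omega
    · have h4 := (h j).2
      unfold nxt at h4
      rw [dif_neg h5] at h4
      exact h4

lemma vv_sum {R : Type*} [CommRing R] (X : Fin k → R) (u v : Fin k → ℕ) (huv : ∀ i, u i ≤ v i) :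
    (∏ i, (1 - X i)) * ∑ b ∈ Fintype.piFinset (fun j : Fin k => Finset.Ico (u j) (v j)), vv b X =
    ∑ σ : Equiv.Perm (Fin k), (Equiv.Perm.sign σ : ℤ) • ∏ j, (X (σ j) ^ u j - X (σ j) ^ v j) := by
  unfold vv
  rw [sum_comm, mul_sum]
  refine sum_congr rfl fun σ _ => ?_
  rw [← smul_sum, mul_smul_comm, ← prod_univ_sum]
  have h1 : ∏ i, (1 - X i) = ∏ i, (1 - X (σ i)) :=
    (Equiv.prod_comp σ (fun i => 1 - X i)).symm
  rw [h1, ← prod_mul_distrib]
  congr 1
  exact prod_congr rfl fun j _ => geom _ _ _ (huv j)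

lemma vv_succ {R : Type*} [CommRing R] (X : Fin k → R) (a : Fin k → ℕ) (ha : ∀ i, 1 ≤ a i) :
    vv a X = (∏ i, X i) * vv (fun i => a i - 1) X := by
  unfold vv
  rw [mul_sum]
  refine sum_congr rfl fun σ _ => ?_
  rw [mul_smul_comm]
  have h1 : ∏ i, X i = ∏ i, X (σ i) := (Equiv.prod_comp σ X).symm
  rw [h1, ← prod_mul_distrib]
  congr 1
  refine prod_congr rfl fun j _ => ?_
  conv_lhs => rw [← Nat.sub_add_cancel (ha j), pow_succ']

lemma AN_db (h4 : S_XF) : AN (db (xx (k := k))) := by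
  unfold db
  have h2 : ∀ i : Fin k, AN (2 * xx i : E k) := by
    intro i
    rw [two_mul]
    exact (AN_xx h4 i).add (AN_xx h4 i)
  refine (AN_prod _ _ fun i _ => AN_one.sub (h2 i)).mul (AN_prod _ _ fun p _ => ?_)
  exact ((AN_xx h4 _).sub (AN_xx h4 _)).mul ((AN_one.sub (AN_xx h4 _)).sub (AN_xx h4 _))

lemma NN_vv (h2 : S_EH1) (h4 : S_XF) (N : ℕ) (a : Fin k → ℕ) (i : Fin k) (h : N ≤ a i) :
    NN N (vv a (xx (k := k))) := by
  unfold vv
  refine NN_sum _ _ fun σ _ => NN.zsmul _ ?_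
  rw [← mul_prod_erase univ _ (mem_univ i)]
  exact NN.mul (NN_pow h2 h4 N _ h _) (AN_prod _ _ fun j _ => (AN_xx h4 _).pow _)

lemma res_sub (f g : E k) : res (f - g) = res f - res g := by
  unfold res
  rw [HahnSeries.coeff_sub]

lemma res_sum (h3 : S_EH3) {ι : Type*} (s : Finset ι) (f : ι → E k) :
    res (∑ i ∈ s, f i) = ∑ i ∈ s, res (f i) := by
  classical
  induction s using Finset.induction_on with
  | empty => rw [sum_empty, sum_empty]; exact HahnSeries.coeff_zero
  | insert i s hi ih => rw [sum_insert hi, sum_insert hi, (h3 k).1, ih]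

lemma xx_ne (h4 : S_XF) (j : Fin k) : (xx j : E k) ≠ 0 := by
  intro h
  have := (h4 k j).1.1
  rw [h] at this
  exact this HahnSeries.coeff_zero

lemma one_sub_ne (h4 : S_XF) (j : Fin k) : (1 - xx j : E k) ≠ 0 := by
  intro h
  have := ((h4 k j).2.2.2.2.1 j).1.1
  rw [h] at this
  exact this HahnSeries.coeff_zero

theorem mrec (h1 : S_REGN) (h2 : S_EH1) (h3 : S_EH3) (h4 : S_XF) : S_MREC := by
  intro k m hk a ha ha0
  have hpos : ∀ i, 1 ≤ a i := by
    intro i
    have : a ⟨0, hk⟩ ≤ a i := ha.monotone (Fin.mk_le_of_le_val (Nat.zero_le _))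
    omega
  have hlast : ∀ i, a i ≤ a ⟨k - 1, by omega⟩ := by
    intro i
    refine ha.monotone ?_
    have := i.2
    exact Fin.mk_le_mk.2 (by omega)
  by_cases hcase : m + k + 2 ≤ a ⟨k - 1, by omega⟩
  · -- both sides vanish
    rw [sum_eq_zero]
    · unfold mres
      have h5 := h1 k (m + 1 + k) (vv a (xx (k := k))) (db (xx (k := k)))
        (NN_vv h2 h4 (m + 1 + k) a ⟨k - 1, by omega⟩ (by omega)) (AN_db h4)
      rw [mul_comm (vv a xx) (db xx)] at h5
      exact h5
    · intro b hb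
      exfalso
      rw [mem_filter, Fintype.mem_piFinset] at hb
      have h5 := hb.1 ⟨k - 1, by omega⟩
      have h6 := hb.2.1 ⟨k - 1, by omega⟩
      rw [mem_range] at h5
      omega
  · have hl : ∀ i, a i ≤ m + k + 1 := by
      intro i
      have := hlast i
      omega
    rw [filter_eq m a ha hl]
    -- the algebraic identity
    have huv : ∀ j, a j - 1 ≤ nxt (m + k) a j := by
      intro j
      unfold nxt
      split_ifs with h
      · have : a j < a ⟨j.1 + 1, h⟩ := ha (by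
          refine Fin.mk_lt_mk.2 ?_
          · omega)
        omega
      · have := hl j
        omega
    have e1 := vv_sum (xx (k := k)) (fun j => a j - 1) (nxt (m + k) a) huv
    have e2 := tele (fun j i => (xx (k := k) i) ^ (a j - 1)) (fun i => (xx (k := k) i) ^ (m + k))
    have e3 : ∀ (σ : Equiv.Perm (Fin k)) (j : Fin k), (xx (k := k) (σ j)) ^ (nxt (m + k) a j) =
        (if h : j.1 + 1 < k then (xx (k := k) (σ j)) ^ (a ⟨j.1 + 1, h⟩ - 1)
          else (xx (k := k) (σ j)) ^ (m + k)) := by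
      intro σ j
      unfold nxt
      split_ifs <;> rfl
    simp only [e3] at e1
    rw [e2] at e1
    have hT : NN (m + k) ((∑ σ : Equiv.Perm (Fin k), (Equiv.Perm.sign σ : ℤ) •
        ∏ j, ((xx (k := k) (σ j)) ^ (a j - 1) - (xx (k := k) (σ j)) ^ (m + k))) -
        vv (fun j => a j - 1) (xx (k := k))) := by
      unfold vv
      rw [← sum_sub_distrib]
      refine NN_sum _ _ fun σ _ => ?_
      rw [← smul_sub]
      refine NN.zsmul _ (NN_prod_sub univ _ _ (fun i => (AN_xx h4 _).pow _)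
        (fun i => NN_pow h2 h4 _ _ le_rfl _) (fun i => (AN_xx h4 _).pow _))
    rw [← e1] at hT
    have hT2 := h1 k (m + k) _ (db (xx (k := k)) * ∏ i, (1 - xx (k := k) i)⁻¹) hT
      ((AN_db h4).mul (AN_prod _ _ fun i _ => AN_inv h4 i))
    unfold mres
    rw [← res_sum h3, ← sum_div, ← mul_sum]
    rw [← sub_eq_zero, ← res_sub]
    rw [← neg_eq_zero] at hT2
    rw [← hT2]
    have hneg : ∀ f : E k, -res f = res (-f) := fun f => by
      unfold res; rw [HahnSeries.coeff_neg]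
    rw [hneg]
    congr 1
    rw [vv_succ _ a hpos]
    have hP : (∏ i, xx (k := k) i) ≠ 0 := prod_ne_zero_iff.2 fun i _ => xx_ne h4 i
    have hQ : (∏ i, (1 - xx (k := k) i)) ≠ 0 := prod_ne_zero_iff.2 fun i _ => one_sub_ne h4 i
    have hU : (∏ i, uu (xx (k := k) i)) = (∏ i, xx (k := k) i) * ∏ i, (1 - xx (k := k) i) := by
      rw [← prod_mul_distrib]; rfl
    rw [hU, prod_inv_distrib]
    generalize (∏ i, xx (k := k) i) = P at hP ⊢
    generalize (∏ i, (1 - xx (k := k) i)) = Q at hQ ⊢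
    rw [show m + 1 + k = m + k + 1 by ring]
    generalize hn : m + k = n
    field_simp
    ring

end Pool.Agent.H326.GM174.MREC
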