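import Pool.Agent.H174.GM.Stmts

/-!
# GM EH2: Hahn series: support conditions for inverses
-/

set_option autoImplicit false

namespace Pool.Agent.H326.GM174.EH2

open Pool.Agent.H174.GM

variable {k : ℕ}

lemma lead_iff (f : E k) (γ : Ex k) : Lead f γ ↔ f ≠ 0 ∧ f.order = γ := by
  constructor
  · rintro ⟨h1, h2⟩
    have h0 : f ≠ 0 := by
      intro h; rw [h] at h1; exact h1 HahnSeries.coeff_zero
    refine ⟨h0, le_antisymm (HahnSeries.order_le_of_coeff_ne_zero h1) ?_⟩
    by_contra hlt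
    rw [not_le] at hlt
    exact h0 (HahnSeries.coeff_order_eq_zero.1 (h2 _ hlt))
  · rintro ⟨h0, rfl⟩
    exact ⟨fun h => h0 (HahnSeries.coeff_order_eq_zero.1 h), fun δ hδ => HahnSeries.coeff_eq_zero_of_lt_order hδ⟩

lemma lead_inv (f : E k) (γ : Ex k) (h : Lead f γ) : Lead f⁻¹ (-γ) := by
  rw [lead_iff] at h ⊢
  obtain ⟨h0, h1⟩ := h
  have h2 : f⁻¹ ≠ 0 := inv_ne_zero h0
  refine ⟨h2, ?_⟩
  have h3 : (f * f⁻¹).order = f.order + (f⁻¹).order := HahnSeries.order_mul h0 h2
  rw [mul_inv_cancel₀ h0, HahnSeries.order_one, h1] at h3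
  exact eq_neg_of_add_eq_zero_right h3.symm

lemma core (w : Ex k → ℤ) (hw : ∀ a b, w (a + b) = w a + w b) (f : E k) (γ : Ex k)
    (hL : Lead f γ) (hge : ∀ a, f.coeff a ≠ 0 → w γ ≤ w a) :
    ∀ b, f⁻¹.coeff b ≠ 0 → - w γ ≤ w b := by
  intro b hb
  by_contra hlt
  rw [not_le] at hlt
  have h0 : f ≠ 0 := ((lead_iff f γ).1 hL).1
  set S : Set (Ex k) := {δ | f⁻¹.coeff δ ≠ 0 ∧ w δ < - w γ} with hS
  have hSn : S.Nonempty := ⟨b, hb, hlt⟩
  have hSW : S.IsWF := (f⁻¹).isWF_support.mono (fun δ hδ => hδ.1)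
  set δ := hSW.min hSn with hδ
  have hδS : δ ∈ S := hSW.min_mem hSn
  have h1 : (f * f⁻¹).coeff (γ + δ) = f.coeff γ * f⁻¹.coeff δ := by
    rw [HahnSeries.coeff_mul]
    rw [Finset.sum_eq_single (γ, δ)]
    · rintro ⟨a, b'⟩ hab hne
      exfalso
      rw [Finset.mem_antidiagonal] at hab
      obtain ⟨ha, hb', hsum⟩ := hab
      simp only at ha hb' hsum
      have ha1 : γ ≤ a := by
        by_contra hlt'
        rw [not_le] at hlt'
        exact ha (hL.2 _ hlt')
      have ha2 : γ ≠ a := by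
        rintro rfl
        exact hne (by rw [add_left_cancel hsum])
      have ha3 : γ < a := lt_of_le_of_ne ha1 ha2
      have hb2 : b' < δ := by
        rcases lt_or_ge b' δ with h | h
        · exact h
        · exact absurd hsum (ne_of_gt (add_lt_add_of_lt_of_le ha3 h))
      have hwa := hge a ha
      have hws := congrArg w hsum
      rw [hw, hw] at hws
      have hδ2 := hδS.2
      have hbS : b' ∈ S := ⟨hb', by omega⟩
      exact hSW.not_lt_min hSn hbS hb2
    · intro hnot
      exfalso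
      apply hnot
      rw [Finset.mem_antidiagonal]
      exact ⟨hL.1, hδS.1, rfl⟩
  rw [mul_inv_cancel₀ h0, HahnSeries.coeff_one] at h1
  have hne : γ + δ ≠ 0 := by
    intro h
    have h2 := congrArg w h
    have h3 : w 0 = 0 := by
      have := hw 0 0
      rw [add_zero] at this
      omega
    rw [hw, h3] at h2
    have hδ2 := hδS.2
    omega
  rw [if_neg hne] at h1
  exact mul_ne_zero hL.1 hδS.1 h1.symm

theorem eh2 : S_EH2 := by
  intro k f γ hL
  refine ⟨lead_inv f γ hL, fun j hge => ?_, fun j hle => ?_⟩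
  · exact core (fun a => ofLex a j) (fun a b => rfl) f γ hL hge
  · intro b hb
    have h := core (fun a => -(ofLex a j)) (fun a b => by
      change -(ofLex a j + ofLex b j) = _
      ring) f γ hL (fun a ha => neg_le_neg (hle a ha)) b hb
    change -(-(ofLex γ j)) ≤ -(ofLex b j) at h
    omega

end Pool.Agent.H326.GM174.EH2
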