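import Pool.Agent.H174.GM.Stmts2
import Pool.Agent.H326.GM174.EH2

/-!
# GM ODD: the residue of `c (1-2x)/u^i`
-/

set_option autoImplicit false

namespace Pool.Agent.H326.GM174.ODD

open Pool.Agent.H174.GM

variable {k : ℕ}

lemma res_sub (f g : E k) : res (f - g) = res f - res g := by
  unfold res
  rw [HahnSeries.coeff_sub]

/-- `d_l = x^{-l} - (1-x)^{-l}` -/
noncomputable def dl (j : Fin k) (l : ℕ) : E k := (xx j)⁻¹ ^ l - (1 - xx j)⁻¹ ^ l

lemma xx_ne (h3 : S_XF) (j : Fin k) : (xx j : E k) ≠ 0 := by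
  intro h
  have := (h3 k j).1.1
  rw [h] at this
  exact this HahnSeries.coeff_zero

lemma one_sub_ne (h3 : S_XF) (j : Fin k) : (1 - xx j : E k) ≠ 0 := by
  intro h
  have := ((h3 k j).2.2.2.2.1 j).1.1
  rw [h] at this
  exact this HahnSeries.coeff_zero

lemma le_inv (h3 : S_XF) (j : Fin k) : Le j (-1) ((xx j : E k)⁻¹) := by
  have h := (EH2.eh2 k (xx j) _ (h3 k j).1).2.2 j
  have e : ofLex (toLex (Pi.single j 1 : Fin k → ℤ)) j = 1 := by simp
  rw [e] at h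
  exact h (h3 k j).2.2.1

lemma le_pow (h1 : S_EH1) (h3 : S_XF) (j : Fin k) (l : ℕ) :
    Le j (-((l : ℤ) + 1)) ((xx j : E k)⁻¹ ^ (l + 1)) := by
  induction l with
  | zero => simpa using le_inv h3 j
  | succ n ih =>
    have h := (h1 k j (-((n : ℤ) + 1)) (-1) ((xx j : E k)⁻¹ ^ (n + 1)) ((xx j : E k)⁻¹)).2.1 ih
      (le_inv h3 j)
    rw [← pow_succ] at h
    have e : (-((n : ℤ) + 1)) + -1 = -(((n + 1 : ℕ) : ℤ) + 1) := by push_cast; ring
    rw [e] at h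
    exact h

lemma ge_pow (h1 : S_EH1) (h3 : S_XF) (j : Fin k) (l : ℕ) :
    Ge j 0 ((1 - xx j : E k)⁻¹ ^ (l + 1)) := by
  induction l with
  | zero => simpa using ((h3 k j).2.2.2.2.1 j).2.2
  | succ n ih =>
    have h := (h1 k j 0 0 ((1 - xx j : E k)⁻¹ ^ (n + 1)) ((1 - xx j : E k)⁻¹)).1 ih
      ((h3 k j).2.2.2.2.1 j).2.2
    rw [← pow_succ, add_zero] at h
    exact h

lemma res_dl (h1 : S_EH1) (h2 : S_EH3) (h3 : S_XF) (j : Fin k) (c : E k) (hc : Free j c) (l : ℕ) :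
    res (c * dl j (l + 2)) = 0 := by
  unfold dl
  rw [mul_sub, res_sub]
  have e1 : res (c * (xx j : E k)⁻¹ ^ (l + 2)) = 0 := by
    refine (h2 k).2.2.2 j _ ?_
    have h := (h1 k j 0 (-(((l + 1 : ℕ) : ℤ) + 1)) c ((xx j : E k)⁻¹ ^ (l + 1 + 1))).2.1 hc.2
      (le_pow h1 h3 j (l + 1))
    exact (h1 k j _ (-2) (c * (xx j : E k)⁻¹ ^ (l + 2)) 0).2.2.2.2.2.2.2.1 h (by push_cast; omega)
  have e2 : res (c * (1 - xx j : E k)⁻¹ ^ (l + 2)) = 0 := by
    refine (h2 k).2.2.1 j _ ?_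
    have h := (h1 k j 0 0 c ((1 - xx j : E k)⁻¹ ^ (l + 1 + 1))).1 hc.1 (ge_pow h1 h3 j (l + 1))
    rw [add_zero] at h
    exact h
  rw [e1, e2, sub_zero]

/-- the additive monoid generated by the `d_l`, `l ≥ 2` -/
noncomputable def SS (j : Fin k) : AddSubmonoid (E k) := AddSubmonoid.closure (Set.range fun l : ℕ => dl j (l + 2))

lemma dl_zero (j : Fin k) : dl j 0 = 0 := by simp [dl]

lemma rec_dl (h3 : S_XF) (j : Fin k) (l : ℕ) :
    (uu (xx j : E k))⁻¹ * dl j (l + 1) = dl j (l + 2) + (uu (xx j : E k))⁻¹ * dl j l := by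
  have hx := xx_ne h3 j
  have hy := one_sub_ne h3 j
  have hab : (xx j : E k)⁻¹ + (1 - xx j)⁻¹ = (xx j)⁻¹ * (1 - xx j)⁻¹ := by
    field_simp
    ring
  unfold dl uu
  rw [mul_inv]
  generalize (xx j : E k)⁻¹ = a at hab ⊢
  generalize (1 - xx j : E k)⁻¹ = b at hab ⊢
  linear_combination (-(a ^ (l + 1) - b ^ (l + 1))) * hab

lemma mem1 (h3 : S_XF) (j : Fin k) (l : ℕ) : (uu (xx j : E k))⁻¹ * dl j (l + 1) ∈ SS j := by
  induction l with
  | zero =>
    rw [rec_dl h3, dl_zero, mul_zero, add_zero]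
    exact AddSubmonoid.subset_closure ⟨0, rfl⟩
  | succ n ih =>
    rw [rec_dl h3]
    exact (SS j).add_mem (AddSubmonoid.subset_closure ⟨n + 1, rfl⟩) ih

lemma mem2 (h3 : S_XF) (j : Fin k) (f : E k) (hf : f ∈ SS j) : (uu (xx j : E k))⁻¹ * f ∈ SS j := by
  refine AddSubmonoid.closure_induction (fun f hf => ?_) ?_ (fun f g _ _ h1 h2 => ?_) hf
  · obtain ⟨l, rfl⟩ := hf
    exact mem1 h3 j (l + 1)
  · rw [mul_zero]; exact (SS j).zero_mem
  · rw [mul_add]; exact (SS j).add_mem h1 h2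

lemma start (h3 : S_XF) (j : Fin k) : (1 - 2 * xx j) / uu (xx j : E k) = dl j 1 := by
  have hx := xx_ne h3 j
  have hy := one_sub_ne h3 j
  unfold dl uu
  field_simp
  ring

lemma mem3 (h3 : S_XF) (j : Fin k) (i : ℕ) : (1 - 2 * xx j) / uu (xx j : E k) ^ (i + 2) ∈ SS j := by
  have hu : uu (xx j : E k) ≠ 0 := mul_ne_zero (xx_ne h3 j) (one_sub_ne h3 j)
  induction i with
  | zero =>
    have e : (1 - 2 * xx j) / uu (xx j : E k) ^ (0 + 2) =
        (uu (xx j : E k))⁻¹ * ((1 - 2 * xx j) / uu (xx j : E k)) := by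
      field_simp
    rw [e, start h3]
    exact mem1 h3 j 0
  | succ n ih =>
    have e : (1 - 2 * xx j) / uu (xx j : E k) ^ (n + 1 + 2) =
        (uu (xx j : E k))⁻¹ * ((1 - 2 * xx j) / uu (xx j : E k) ^ (n + 2)) := by
      rw [show n + 1 + 2 = (n + 2) + 1 from rfl, pow_succ]
      field_simp
    rw [e]
    exact mem2 h3 j _ ih

theorem odd (h1 : S_EH1) (h2 : S_EH3) (h3 : S_XF) : S_ODD := by
  intro k j c hc
  refine ⟨fun i hi => ?_, ?_⟩
  · obtain ⟨n, rfl⟩ := Nat.exists_eq_add_of_le' hi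
    rw [mul_div_assoc]
    refine AddSubmonoid.closure_induction (motive := fun f _ => res (c * f) = 0)
      (fun f hf => ?_) ?_ (fun f g _ _ h4 h5 => ?_) (mem3 h3 j n)
    · obtain ⟨l, rfl⟩ := hf
      exact res_dl h1 h2 h3 j c hc l
    · rw [mul_zero]; exact HahnSeries.coeff_zero
    · rw [mul_add, (h2 k).1, h4, h5, add_zero]
  · rw [mul_div_assoc, start h3]
    unfold dl
    rw [mul_sub, res_sub, pow_one, pow_one]
    have e2 : res (c * (1 - xx j : E k)⁻¹) = 0 := by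
      refine (h2 k).2.2.1 j _ ?_
      have h := (h1 k j 0 0 c ((1 - xx j : E k)⁻¹)).1 hc.1 ((h3 k j).2.2.2.2.1 j).2.2
      rw [add_zero] at h
      exact h
    rw [e2, sub_zero]

end Pool.Agent.H326.GM174.ODD
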